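import Pool.Agent.W888.UG.Law
import Pool.Agent.H562R2.KVSound

set_option autoImplicit false
set_option linter.unusedSectionVars false

/-!
Copies of the Khot-Vishnoi games; existence of branch-and-cut proofs.
-/

namespace Pool.Agent.W888.UG

open Finset Matrix Pool.Agent.H562R2

/-! ### The complete tree -/

section full

variable {W A : Type} [Fintype W] [Fintype A] [DecidableEq W] [DecidableEq A]

/-- the tree which fixes the variables of a list -/
def full : List (W × A) → Tree W A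
  | [] => Tree.leaf
  | p :: l => Tree.int (fun w a => if w = p.1 ∧ a = p.2 then 1 else 0) 0 (full l) (full l)

theorem single_sum (p : W × A) (μ : W → A → ℝ) :
    ∑ w, ∑ a, (((if w = p.1 ∧ a = p.2 then 1 else 0 : ℤ)) : ℝ) * μ w a = μ p.1 p.2 := by
  rw [Finset.sum_eq_single p.1]
  · rw [Finset.sum_eq_single p.2]
    · simp
    · intro a _ ha
      simp [ha]
    · intro h
      exact absurd (Finset.mem_univ _) h
  · intro w _ hw
    simp [hw]
  · intro h
    exact absurd (Finset.mem_univ _) h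

theorem full_proves (R : Set (W → A → ℝ)) (l : List (W × A)) : ∀ C : Set (W → A → ℝ),
    (∀ μ ∈ C, (∀ p ∈ l, μ p.1 p.2 ≤ 0 ∨ 1 ≤ μ p.1 p.2) → μ ∉ R) → (full l).Proves R C := by
  induction l with
  | nil =>
    intro C h μ hμ
    exact h μ hμ (by simp)
  | cons p l ih =>
    intro C h
    refine ⟨ih _ ?_, ih _ ?_⟩
    · rintro μ ⟨hμ, hμ'⟩ hl
      refine h μ hμ fun p' hp' => ?_
      rcases List.mem_cons.1 hp' with h1 | h1
      · rw [h1]
        rw [Set.mem_ofPred_eq, single_sum] at hμ'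
        left
        simpa using hμ'
      · exact hl p' h1
    · rintro μ ⟨hμ, hμ'⟩ hl
      refine h μ hμ fun p' hp' => ?_
      rcases List.mem_cons.1 hp' with h1 | h1
      · rw [h1]
        rw [Set.mem_ofPred_eq, single_sum] at hμ'
        right
        simpa using hμ'
      · exact hl p' h1

end full

section exist

variable {U V E A : Type} [Fintype U] [Fintype V] [Fintype E] [Fintype A] [DecidableEq U]
  [DecidableEq V] [DecidableEq A]

theorem dot_self_eq_zero' {D : Type} [Fintype D] {u : D → ℝ} (h : u ⬝ᵥ u = 0) : u = 0 :=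
  dotProduct_self_eq_zero.1 h

/-- If every labelling satisfies less than `(1 - ε) |E|` edges then some branch-and-cut tree proves
it. -/
theorem exists_proof (s : E → U) (t : E → V) (π : E → Equiv.Perm A) (ε : ℝ)
    (hval : ∀ l : U ⊕ V → A, ((Finset.univ.filter fun e =>
      π e (l (Sum.inl (s e))) = l (Sum.inr (t e))).card : ℝ) < (1 - ε) * Fintype.card E) :
    ∃ T : Tree (U ⊕ V) A, T.Proves (Relax s t π ε) Set.univ := by
  classical
  refine ⟨full (Finset.univ : Finset ((U ⊕ V) × A)).toList, full_proves _ _ _ ?_⟩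
  rintro μ - h01 ⟨D, iD, z, x, h1, h2, h3, h4, h5, h6⟩
  have h01' : ∀ w a, μ w a ≤ 0 ∨ 1 ≤ μ w a := fun w a => h01 (w, a) (by simp)
  have hsum : ∀ w, ∑ a, μ w a = 1 := by
    intro w
    have h7 : z ⬝ᵥ z = ∑ a, x w a ⬝ᵥ x w a := by
      nth_rewrite 1 [← h2 w]
      nth_rewrite 1 [← h2 w]
      rw [sum_dotProduct]
      refine Finset.sum_congr rfl fun a _ => ?_
      rw [dotProduct_sum, Finset.sum_eq_single a]
      · intro b _ hb
        exact h3 w a b (Ne.symm hb)
      · intro h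
        exact absurd (Finset.mem_univ _) h
    rw [← h1, h7]
    exact Finset.sum_congr rfl fun a _ => h5 w a
  have hnn : ∀ w a, 0 ≤ μ w a := by
    intro w a
    rw [h5]
    exact vec_pos h4 (some (some (w, a))) (some (some (w, a)))
  have hex : ∀ w, ∃ a, 1 ≤ μ w a := by
    intro w
    by_contra hcon
    push Not at hcon
    have h7 : ∑ a, μ w a = 0 := by
      refine Finset.sum_eq_zero fun a _ => ?_
      rcases h01' w a with h | h
      · exact le_antisymm h (hnn w a)
      · exact absurd h (not_le.2 (hcon a))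
    rw [hsum w] at h7
    norm_num at h7
  choose l hl using hex
  have hzero : ∀ w a, a ≠ l w → x w a = 0 := by
    intro w a ha
    apply dot_self_eq_zero'
    rw [← h5]
    have h7 : μ w a + μ w (l w) ≤ 1 := by
      rw [← hsum w, ← Finset.sum_pair ha]
      exact Finset.sum_le_sum_of_subset_of_nonneg (Finset.subset_univ _) fun b _ _ => hnn w b
    linarith [hnn w a, hl w]
  have hz : ∀ w, x w (l w) = z := by
    intro w
    rw [← h2 w, Finset.sum_eq_single (l w)]
    · intro a _ ha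
      exact hzero w a ha
    · intro h
      exact absurd (Finset.mem_univ _) h
  have hedge : ∀ e, ∑ a, x (Sum.inl (s e)) a ⬝ᵥ x (Sum.inr (t e)) (π e a) =
      if π e (l (Sum.inl (s e))) = l (Sum.inr (t e)) then 1 else 0 := by
    intro e
    rw [Finset.sum_eq_single (l (Sum.inl (s e)))]
    · rw [hz]
      split_ifs with h
      · rw [h, hz, h1]
      · rw [hzero _ _ h, dotProduct_zero]
    · intro a _ ha
      rw [hzero _ _ ha, zero_dotProduct]
    · intro h
      exact absurd (Finset.mem_univ _) h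
  simp only [hedge] at h6
  rw [Finset.sum_boole] at h6
  exact absurd h6 (not_le.2 (hval l))

end exist

/-! ### The games -/

section kv

variable {k a B : ℕ}

theorem kvec_self (f : Fn k) (i : Gam k) :
    kvec k f i ⬝ᵥ kvec k f i = 1 / (Fintype.card (Gam k) : ℝ) := by
  rw [kvec_dot]
  have h1 : ∀ x, sg (f x + f x + chi (i + i) x) = 1 := by
    intro x
    rw [bool_add_self, pi_add_self, chi_zero]
    rfl
  simp only [h1]
  rw [Finset.sum_const, Finset.card_univ, nsmul_eq_mul, Fintype.card_fun, Fintype.card_bool,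
    Fintype.card_fin]
  push_cast
  have : (0 : ℝ) < 2 ^ k := by positivity
  field_simp

theorem rep_inj {h h' : Fn k} (h1 : rep h = rep h') (h2 : idx h = idx h') (h3 : h 0 = h' 0) :
    h = h' := by
  funext x
  have h4 := congrFun h1 x
  simp only [rep] at h4
  rw [h2, h3] at h4
  exact add_right_cancel h4

theorem card_rep (u : Fn k) :
    (Finset.univ.filter fun h : Fn k => rep h = u).card ≤ 2 ^ (k + 1) := by
  have h1 : (Finset.univ.filter fun h : Fn k => rep h = u).card ≤
      (Finset.univ : Finset (Gam k × Bool)).card := by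
    refine Finset.card_le_card_of_injOn (fun h => (idx h, h 0)) (fun _ _ => by simp) ?_
    intro h hh h' hh' heq
    rw [Finset.mem_coe, Finset.mem_filter] at hh hh'
    simp only [Prod.mk.injEq] at heq
    exact rep_inj (hh.2.trans hh'.2.symm) heq.1 heq.2
  refine h1.trans (le_of_eq ?_)
  rw [Finset.card_univ, Fintype.card_prod, Fintype.card_fun, Fintype.card_bool, Fintype.card_fin,
    pow_succ]

theorem card_ks (u : Fn k) :
    (Finset.univ.filter fun e : KE k B => ks k B e = u).card ≤ 2 ^ (k + 1) * B ^ 2 ^ k := by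
  have h1 : (Finset.univ.filter fun e : KE k B => ks k B e = u) =
      (Finset.univ.filter fun h : Fn k => rep h = u) ×ˢ
        (Finset.univ : Finset (Gam k → Fin B)) := by
    ext e
    rw [Finset.mem_filter, Finset.mem_product, Finset.mem_filter]
    simp [ks]
  rw [h1, Finset.card_product, Finset.card_univ, Fintype.card_fun, Fintype.card_fin,
    Fintype.card_fun (α := Fin k), Fintype.card_bool, Fintype.card_fin]
  exact Nat.mul_le_mul_right _ (card_rep u)

theorem card_kt (u : Fn k) :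
    (Finset.univ.filter fun e : KE k B => kt k a B e = u).card ≤ 2 ^ (k + 1) * B ^ 2 ^ k := by
  have h1 : (Finset.univ.filter fun e : KE k B => kt k a B e = u).card ≤
      ((Finset.univ.filter fun h : Fn k => rep h = u) ×ˢ
        (Finset.univ : Finset (Gam k → Fin B))).card := by
    refine Finset.card_le_card_of_injOn (fun e => (e.1 + nz k a B e.2, e.2)) ?_ ?_
    · intro e he
      rw [Finset.mem_coe, Finset.mem_filter] at he
      rw [Finset.mem_coe, Finset.mem_product, Finset.mem_filter]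
      exact ⟨⟨Finset.mem_univ _, he.2⟩, Finset.mem_univ _⟩
    · intro e _ e' _ heq
      simp only [Prod.mk.injEq] at heq
      obtain ⟨h2, h3⟩ := heq
      rw [h3] at h2
      exact Prod.ext (add_right_cancel h2) h3
  refine h1.trans ?_
  rw [Finset.card_product, Finset.card_univ, Fintype.card_fun, Fintype.card_fin,
    Fintype.card_fun (α := Fin k), Fintype.card_bool, Fintype.card_fin]
  exact Nat.mul_le_mul_right _ (card_rep u)

theorem cube_tri {X : Type} [Fintype X] (P Q R : X → ℝ) (hP : ∀ x, P x = 1 ∨ P x = -1)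
    (hQ : ∀ x, Q x = 1 ∨ Q x = -1) (hR : ∀ x, R x = 1 ∨ R x = -1) :
    (∑ x, P x * Q x) ^ 2 + (∑ x, P x * R x) ^ 2 ≤
      (Fintype.card X : ℝ) ^ 2 + (∑ x, Q x * R x) ^ 2 := by
  have h1 : ∀ u v : ℝ, (∀ x, u * (P x * Q x) + v * (P x * R x) ≤ 1 + u * v * (Q x * R x)) →
      u * (∑ x, P x * Q x) + v * (∑ x, P x * R x) ≤
        (Fintype.card X : ℝ) + u * v * ∑ x, Q x * R x := by
    intro u v h
    rw [Finset.mul_sum, Finset.mul_sum, Finset.mul_sum, ← Finset.sum_add_distrib]
    refine (Finset.sum_le_sum fun x _ => h x).trans (le_of_eq ?_)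
    rw [Finset.sum_add_distrib, Finset.sum_const, Finset.card_univ, nsmul_eq_mul, mul_one]
  have h2 := h1 1 1 fun x => by
    rcases hP x with h | h <;> rcases hQ x with h' | h' <;> rcases hR x with h'' | h'' <;>
      rw [h, h', h''] <;> norm_num
  have h3 := h1 1 (-1) fun x => by
    rcases hP x with h | h <;> rcases hQ x with h' | h' <;> rcases hR x with h'' | h'' <;>
      rw [h, h', h''] <;> norm_num
  have h4 := h1 (-1) 1 fun x => by
    rcases hP x with h | h <;> rcases hQ x with h' | h' <;> rcases hR x with h'' | h'' <;>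
      rw [h, h', h''] <;> norm_num
  have h5 := h1 (-1) (-1) fun x => by
    rcases hP x with h | h <;> rcases hQ x with h' | h' <;> rcases hR x with h'' | h'' <;>
      rw [h, h', h''] <;> norm_num
  set α := ∑ x, P x * Q x
  set β := ∑ x, P x * R x
  set γ := ∑ x, Q x * R x
  have h6 : (α + β) ^ 2 ≤ ((Fintype.card X : ℝ) + γ) ^ 2 := by
    apply sq_le_sq'
    · linarith
    · linarith
  have h7 : (α - β) ^ 2 ≤ ((Fintype.card X : ℝ) - γ) ^ 2 := by
    apply sq_le_sq'
    · linarith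
    · linarith
  nlinarith

theorem sg_cases (b : Bool) : sg b = 1 ∨ sg b = -1 := by
  cases b
  · exact Or.inl rfl
  · exact Or.inr rfl

theorem kvec_dot' (f g : Fn k) (i j : Gam k) : kvec k f i ⬝ᵥ kvec k g j =
    (1 / (2 : ℝ) ^ k) ^ 3 * (∑ x, sg (f x + chi i x) * sg (g x + chi j x)) ^ 2 := by
  rw [kvec_dot]
  congr 2
  refine Finset.sum_congr rfl fun x _ => ?_
  rw [← sg_add, chi_add, Pi.add_apply]
  congr 1
  ring

theorem kvec_tri (f g h : Fn k) (i j l : Gam k) :
    kvec k f i ⬝ᵥ kvec k g j + kvec k f i ⬝ᵥ kvec k h l ≤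
      1 / (Fintype.card (Gam k) : ℝ) + kvec k g j ⬝ᵥ kvec k h l := by
  have h0 : (0 : ℝ) < 2 ^ k := by positivity
  have h1 := cube_tri (fun x => sg (f x + chi i x)) (fun x => sg (g x + chi j x))
    (fun x => sg (h x + chi l x)) (fun _ => sg_cases _) (fun _ => sg_cases _)
    (fun _ => sg_cases _)
  have h2 : (Fintype.card (Gam k) : ℝ) = 2 ^ k := by
    rw [Fintype.card_fun, Fintype.card_bool, Fintype.card_fin]; push_cast; rfl
  rw [h2] at h1 ⊢
  rw [kvec_dot', kvec_dot', kvec_dot', ← mul_add]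
  have h3 : (1 : ℝ) / 2 ^ k = (1 / 2 ^ k) ^ 3 * (2 ^ k) ^ 2 := by field_simp
  calc (1 / (2 : ℝ) ^ k) ^ 3 * ((∑ x, sg (f x + chi i x) * sg (g x + chi j x)) ^ 2 +
        (∑ x, sg (f x + chi i x) * sg (h x + chi l x)) ^ 2) ≤
      (1 / (2 : ℝ) ^ k) ^ 3 * ((2 ^ k) ^ 2 +
        (∑ x, sg (g x + chi j x) * sg (h x + chi l x)) ^ 2) :=
        mul_le_mul_of_nonneg_left h1 (by positivity)
    _ = _ := by rw [mul_add, ← h3]

/-- All triangle inequalities from those between the vectors of the labels. -/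
theorem tri_all {W A D : Type} [Fintype D] (z : D → ℝ) (x : W → A → D → ℝ) (ρ : ℝ)
    (hρ : 2 * ρ ≤ 1) (hρ0 : 0 ≤ ρ) (hz : z ⬝ᵥ z = 1) (hx : ∀ w a, x w a ⬝ᵥ x w a = ρ)
    (hzx : ∀ w a, z ⬝ᵥ x w a = ρ) (hpos : ∀ w a w' b, 0 ≤ x w a ⬝ᵥ x w' b)
    (htri : ∀ w a w' b w'' c, x w a ⬝ᵥ x w' b + x w a ⬝ᵥ x w'' c ≤ ρ + x w' b ⬝ᵥ x w'' c)
    (i j k : Option (Option (W × A))) :
    0 ≤ (vec z x i - vec z x j) ⬝ᵥ (vec z x i - vec z x k) := by
  have hxz : ∀ w a, x w a ⬝ᵥ z = ρ := fun w a => by rw [dotProduct_comm]; exact hzx w a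
  have hle : ∀ w a w' b, x w a ⬝ᵥ x w' b ≤ ρ := by
    intro w a w' b
    have h1 := htri w a w' b w' b
    rw [hx] at h1
    linarith
  have key : ∀ p q r : D → ℝ, (p - q) ⬝ᵥ (p - r) = p ⬝ᵥ p - p ⬝ᵥ r - (q ⬝ᵥ p - q ⬝ᵥ r) := by
    intro p q r
    rw [sub_dotProduct, dotProduct_sub, dotProduct_sub]
  rw [key]
  rcases i with - | - | i <;> rcases j with - | - | j <;> rcases k with - | - | k <;>
    simp only [vec, zero_dotProduct, dotProduct_zero, hz, hx, hzx, hxz]
  all_goals first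
    | (norm_num; done)
    | linarith
    | linarith [hpos j.1 j.2 k.1 k.2]
    | linarith [hle i.1 i.2 j.1 j.2]
    | linarith [hle j.1 j.2 i.1 i.2]
    | linarith [hle i.1 i.2 k.1 k.2]
    | (have h1 := htri i.1 i.2 j.1 j.2 k.1 k.2
       rw [dotProduct_comm (x i.1 i.2) (x j.1 j.2)] at h1
       linarith)

/-- The uniform point belongs to the relaxation of `m` copies of the game. -/
theorem kv_uniform (hk : 1 ≤ k) (hB : 0 < B) (haB : 2 * a ≤ B) (m : ℕ) (ε : ℝ)
    (hε : 1 - ε ≤ (1 - 2 * a / B : ℝ) ^ 2) :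
    (fun _ _ => 1 / (Fintype.card (Gam k) : ℝ)) ∈
      Relax (fun e : KE k B × Fin m => (ks k B e.1, e.2))
        (fun e : KE k B × Fin m => (kt k a B e.1, e.2)) (fun e => kp k a B e.1) ε := by
  obtain ⟨z, hz, hzx, -, h1, -, h3, -, -⟩ := kvec_feasible (k := k)
  have hzx' : ∀ (f : Fn k) (i : Gam k),
      z ⬝ᵥ kvec k f i = 1 / (Fintype.card (Gam k) : ℝ) := by
    intro f i
    rw [← hzx f, sum_dotProduct, Finset.sum_eq_single i, kvec_self]
    · intro j _ hj
      exact h1 f j i hj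
    · intro h
      exact absurd (Finset.mem_univ _) h
  have hcard : (Fintype.card (Gam k) : ℝ) = 2 ^ k := by
    rw [Fintype.card_fun, Fintype.card_bool, Fintype.card_fin]; push_cast; rfl
  have h2k : (2 : ℝ) ≤ 2 ^ k := by
    calc (2 : ℝ) = 2 ^ 1 := by norm_num
      _ ≤ 2 ^ k := pow_le_pow_right₀ (by norm_num) hk
  refine ⟨Gam k × Gam k, inferInstance, z,
    fun w c => Sum.elim (fun u : Fn k × Fin m => kvec k u.1 c) (fun u => kvec k u.1 c) w,
    hz, ?_, ?_, ?_, ?_, ?_⟩
  · rintro (u | u)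
    · exact hzx u.1
    · exact hzx u.1
  · rintro (u | u) c c' hc
    · exact h1 u.1 c c' hc
    · exact h1 u.1 c c' hc
  · refine tri_all z _ (1 / (Fintype.card (Gam k) : ℝ)) ?_ (by positivity) hz ?_ ?_ ?_ ?_
    · rw [hcard, mul_one_div, div_le_one (by positivity)]
      exact h2k
    · rintro (u | u) c
      · exact kvec_self u.1 c
      · exact kvec_self u.1 c
    · rintro (u | u) c
      · exact hzx' u.1 c
      · exact hzx' u.1 c
    · rintro (u | u) c (u' | u') c' <;> exact h3 u.1 c u'.1 c'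
    · rintro (u | u) c (u' | u') c' (u'' | u'') c'' <;>
        exact kvec_tri u.1 u'.1 u''.1 c c' c''
  · rintro (u | u) c
    · exact (kvec_self u.1 c).symm
    · exact (kvec_self u.1 c).symm
  · simp only [Sum.elim_inl, Sum.elim_inr]
    rw [Fintype.sum_prod_type_right]
    simp only
    rw [Finset.sum_const, Finset.card_univ, nsmul_eq_mul, Fintype.card_fin, Fintype.card_prod,
      Fintype.card_fin]
    have h4 := kval (k := k) hB haB
    have h5 : (1 - ε) * (Fintype.card (KE k B) : ℝ) ≤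
        (1 - 2 * a / B : ℝ) ^ 2 * (Fintype.card (KE k B) : ℝ) :=
      mul_le_mul_of_nonneg_right hε (Nat.cast_nonneg _)
    have h6 := mul_le_mul_of_nonneg_left (h5.trans h4) (Nat.cast_nonneg (α := ℝ) m)
    calc (1 - ε) * ((Fintype.card (KE k B) * m : ℕ) : ℝ) =
          (m : ℝ) * ((1 - ε) * (Fintype.card (KE k B) : ℝ)) := by push_cast; ring
      _ ≤ _ := h6

theorem kv_value (hB : 0 < B) (haB : 2 * a ≤ B) (m j : ℕ) (L M : Fn k × Fin m → Gam k) :
    ((Finset.univ.filter fun e : KE k B × Fin m =>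
      kp k a B e.1 (L (ks k B e.1, e.2)) = M (kt k a B e.1, e.2)).card : ℝ) ≤
      (3 ^ j * Real.sqrt (1 / 2 ^ k) + (1 - 2 * a / B : ℝ) ^ j) *
        Fintype.card (KE k B × Fin m) := by
  rw [Finset.card_filter]
  push_cast
  rw [Fintype.sum_prod_type_right]
  simp only
  have h1 : ∀ i : Fin m, ∑ e : KE k B, (if kp k a B e (L (ks k B e, i)) = M (kt k a B e, i)
      then (1 : ℝ) else 0) ≤ (3 ^ j * Real.sqrt (1 / 2 ^ k) + (1 - 2 * a / B : ℝ) ^ j) *
        Fintype.card (KE k B) := by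
    intro i
    have h2 := kvalue (k := k) (a := a) (B := B) hB haB (fun f => L (f, i)) (fun f => M (f, i)) j
    rw [Finset.card_filter] at h2
    push_cast at h2
    exact h2
  refine (Finset.sum_le_sum fun i _ => h1 i).trans (le_of_eq ?_)
  rw [Finset.sum_const, Finset.card_univ, nsmul_eq_mul, Fintype.card_fin,
    Fintype.card_prod (α := KE k B) (β := Fin m), Fintype.card_fin]
  push_cast
  ring

end kv

/-- The unconditional lower bound. -/
theorem kv_main (ε : ℝ) (hε0 : 0 < ε) (hε1 : ε < 1) :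
    ∃ c r : ℝ, 0 < c ∧ 0 < r ∧ r < 1 ∧ ∀ j : ℕ, 1 ≤ j → ∃ Δ : ℕ, ∀ m : ℕ, 1 ≤ m →
      ∃ (U V E A : Type) (_ : Fintype U) (_ : Fintype V) (_ : Fintype E) (_ : Nonempty E)
        (_ : Fintype A) (_ : DecidableEq U) (_ : DecidableEq V) (_ : DecidableEq A) (s : E → U)
        (t : E → V) (π : E → Equiv.Perm A),
        Fintype.card A = 256 ^ j ∧
        Fintype.card U = m * 2 ^ 256 ^ j ∧ Fintype.card V = m * 2 ^ 256 ^ j ∧
        (∀ u, (Finset.univ.filter fun e => s e = u).card ≤ Δ) ∧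
        (∀ v, (Finset.univ.filter fun e => t e = v).card ≤ Δ) ∧
        (∀ (L : U → A) (M : V → A), ((Finset.univ.filter fun e =>
          π e (L (s e)) = M (t e)).card : ℝ) ≤ 2 * r ^ j * Fintype.card E) ∧
        (∀ F : List (Set (U ⊕ V → A → ℝ)), (∀ C ∈ F, Convex ℝ C) →
          (∀ C ∈ F, ∀ μ ∈ C, μ ∉ Relax s t π ε) → (∀ l : U ⊕ V → A, ∃ C ∈ F, lab l ∈ C) →
          Real.exp (c * (m * 2 ^ 256 ^ j) / (256 ^ j) ^ 2) ≤ F.length) ∧
        (∀ T : Tree (U ⊕ V) A, T.Proves (Relax s t π ε) Set.univ →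
          Real.exp (c * (m * 2 ^ 256 ^ j) / (256 ^ j) ^ 2) ≤ T.leaves) ∧
        (∀ l, SplitProof (Relax s t π ε) l Set.univ →
          Real.exp (c * (m * 2 ^ 256 ^ j) / (256 ^ j) ^ 2) ≤ 2 * l.length + 1) ∧
        (2 * r ^ j < 1 - ε → ∃ T : Tree (U ⊕ V) A, T.Proves (Relax s t π ε) Set.univ) := by
  obtain ⟨B, hBε⟩ := exists_nat_ge (8 / ε)
  have hB0R : (0 : ℝ) < B := lt_of_lt_of_le (by positivity) hBε
  have hB0 : 0 < B := by exact_mod_cast hB0R
  have hB8 : (8 : ℝ) ≤ B := by
    refine le_trans ?_ hBε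
    rw [le_div_iff₀ hε0]
    linarith
  have hB8' : 8 ≤ B := by exact_mod_cast hB8
  have haB : 2 * 1 ≤ B := by omega
  have h2B : 2 / (B : ℝ) ≤ ε / 4 := by
    rw [div_le_iff₀ hB0R]
    rw [div_le_iff₀ hε0] at hBε
    linarith
  obtain ⟨r, hr⟩ : ∃ r : ℝ, r = 1 - 2 / (B : ℝ) := ⟨_, rfl⟩
  have hr' : (1 - 2 * (1 : ℕ) / B : ℝ) = r := by rw [hr]; push_cast; ring
  have h2B' : 2 / (B : ℝ) ≤ 1 / 4 := by
    rw [div_le_iff₀ hB0R]
    linarith
  have h2B'' : 0 < 2 / (B : ℝ) := by positivity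
  refine ⟨(ε / 2) ^ 3 / 64, r, by positivity, by rw [hr]; linarith, by rw [hr]; linarith,
    fun j hj => ⟨2 ^ (8 * j + 1) * B ^ 2 ^ (8 * j), fun m hm => ?_⟩⟩
  have hne : Nonempty (KE (8 * j) B × Fin m) := by
    have : Nonempty (Fin B) := ⟨⟨0, hB0⟩⟩
    have : Nonempty (Fin m) := ⟨⟨0, hm⟩⟩
    infer_instance
  have h256 : (2 : ℕ) ^ (8 * j) = 256 ^ j := by
    rw [pow_mul]; norm_num
  have hcA : Fintype.card (Gam (8 * j)) = 256 ^ j := by
    rw [Fintype.card_fun, Fintype.card_bool, Fintype.card_fin, h256]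
  have hcU : Fintype.card (Fn (8 * j) × Fin m) = m * 2 ^ 256 ^ j := by
    rw [Fintype.card_prod, Fintype.card_fun, Fintype.card_bool, hcA, Fintype.card_fin, mul_comm]
  obtain ⟨s, hs⟩ : ∃ s : KE (8 * j) B × Fin m → Fn (8 * j) × Fin m,
      s = fun e => (ks (8 * j) B e.1, e.2) := ⟨_, rfl⟩
  obtain ⟨t, ht⟩ : ∃ t : KE (8 * j) B × Fin m → Fn (8 * j) × Fin m,
      t = fun e => (kt (8 * j) 1 B e.1, e.2) := ⟨_, rfl⟩
  obtain ⟨π, hπ⟩ : ∃ π : KE (8 * j) B × Fin m → Equiv.Perm (Gam (8 * j)),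
      π = fun e => kp (8 * j) 1 B e.1 := ⟨_, rfl⟩
  have hunif : (fun _ _ => 1 / (Fintype.card (Gam (8 * j)) : ℝ)) ∈ Relax s t π (ε / 2) := by
    rw [hs, ht, hπ]
    refine kv_uniform (by omega) hB0 haB m (ε / 2) ?_
    rw [hr', hr]
    nlinarith [sq_nonneg (2 / (B : ℝ))]
  have hdeg1 : ∀ u, (Finset.univ.filter fun e => s e = u).card ≤
      2 ^ (8 * j + 1) * B ^ 2 ^ (8 * j) := by
    intro u
    refine le_trans ?_ (card_ks (k := 8 * j) (B := B) u.1)
    refine Finset.card_le_card_of_injOn (fun e => e.1) ?_ ?_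
    · intro e he
      rw [Finset.mem_coe, Finset.mem_filter, hs] at he
      rw [Finset.mem_coe, Finset.mem_filter]
      exact ⟨Finset.mem_univ _, by rw [← he.2]⟩
    · intro e he e' he' heq
      rw [Finset.mem_coe, Finset.mem_filter, hs] at he he'
      refine Prod.ext heq ?_
      have h1 := congrArg Prod.snd he.2
      have h2 := congrArg Prod.snd he'.2
      exact h1.trans h2.symm
  have hdeg2 : ∀ u, (Finset.univ.filter fun e => t e = u).card ≤
      2 ^ (8 * j + 1) * B ^ 2 ^ (8 * j) := by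
    intro u
    refine le_trans ?_ (card_kt (k := 8 * j) (a := 1) (B := B) u.1)
    refine Finset.card_le_card_of_injOn (fun e => e.1) ?_ ?_
    · intro e he
      rw [Finset.mem_coe, Finset.mem_filter, ht] at he
      rw [Finset.mem_coe, Finset.mem_filter]
      exact ⟨Finset.mem_univ _, by rw [← he.2]⟩
    · intro e he e' he' heq
      rw [Finset.mem_coe, Finset.mem_filter, ht] at he he'
      refine Prod.ext heq ?_
      have h1 := congrArg Prod.snd he.2
      have h2 := congrArg Prod.snd he'.2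
      exact h1.trans h2.symm
  have hval : ∀ (L M : Fn (8 * j) × Fin m → Gam (8 * j)), ((Finset.univ.filter fun e =>
      π e (L (s e)) = M (t e)).card : ℝ) ≤
        2 * r ^ j * Fintype.card (KE (8 * j) B × Fin m) := by
    intro L M
    rw [hs, ht, hπ]
    refine (kv_value hB0 haB m j L M).trans ?_
    apply mul_le_mul_of_nonneg_right _ (Nat.cast_nonneg _)
    rw [hr']
    have h1 : Real.sqrt (1 / 2 ^ (8 * j)) = (1 / 16) ^ j := by
      have h2 : (1 : ℝ) / 2 ^ (8 * j) = ((1 / 16) ^ j) ^ 2 := by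
        rw [← pow_mul, mul_comm j 2, pow_mul, pow_mul, ← _root_.one_div_pow]
        norm_num
      rw [h2, Real.sqrt_sq (by positivity)]
    rw [h1, ← mul_pow]
    have h3 : ((3 : ℝ) * (1 / 16)) ^ j ≤ r ^ j := by
      apply pow_le_pow_left₀ (by norm_num)
      rw [hr]; linarith
    linarith
  have hexp : (ε / 2) ^ 3 * (Fintype.card (KE (8 * j) B × Fin m) : ℝ) /
      (32 * (Fintype.card (Gam (8 * j)) : ℝ) * ((2 ^ (8 * j + 1) * B ^ 2 ^ (8 * j) : ℕ) : ℝ)) =
      (ε / 2) ^ 3 / 64 * (m * 2 ^ 256 ^ j) / (256 ^ j) ^ 2 := by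
    have hc : ((2 ^ (8 * j + 1) * B ^ 2 ^ (8 * j) : ℕ) : ℝ) =
        256 ^ j * 2 * (B : ℝ) ^ 256 ^ j := by
      rw [pow_succ, h256]
      push_cast
      ring
    rw [hc, Fintype.card_prod, Fintype.card_prod,
      Fintype.card_fun (α := Gam (8 * j)) (β := Fin B),
      Fintype.card_fin, Fintype.card_fin, Fintype.card_fun (α := Gam (8 * j)) (β := Bool),
      Fintype.card_bool, hcA]
    push_cast
    have hB' : (B : ℝ) ^ 256 ^ j ≠ 0 := by positivity
    have h256' : ((256 : ℝ) ^ j) ≠ 0 := by positivity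
    field_simp
    ring
  refine ⟨Fn (8 * j) × Fin m, Fn (8 * j) × Fin m, KE (8 * j) B × Fin m, Gam (8 * j),
    inferInstance, inferInstance, inferInstance, hne, inferInstance, inferInstance, inferInstance,
    inferInstance, s, t, π, hcA, hcU, hcU, hdeg1, hdeg2, hval, ?_, ?_, ?_, ?_⟩
  · intro F hconv hmiss hcov
    have h1 := law_cover s t π _ (by positivity) hdeg1 hdeg2 (ε / 2) (ε / 2) (by positivity)
      (by positivity) (by linarith) hunif F hconv (by rw [add_halves]; exact hmiss) hcov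
    rw [hexp] at h1
    exact h1
  · intro T hT
    have h1 := law_tree s t π _ (by positivity) hdeg1 hdeg2 (ε / 2) (ε / 2) (by positivity)
      (by positivity) (by linarith) hunif T (by rw [add_halves]; exact hT)
    rw [hexp] at h1
    exact h1
  · intro l hl
    obtain ⟨T, hTl, hT⟩ := tree_of_split _ l _ hl
    have h1 := law_tree s t π _ (by positivity) hdeg1 hdeg2 (ε / 2) (ε / 2) (by positivity)
      (by positivity) (by linarith) hunif T (by rw [add_halves]; exact hT)
    rw [hexp, hTl] at h1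
    push_cast at h1
    exact h1
  · intro hlt
    refine exists_proof s t π ε fun l => ?_
    have h1 := hval (fun u => l (Sum.inl u)) (fun v => l (Sum.inr v))
    have h2 : (0 : ℝ) < Fintype.card (KE (8 * j) B × Fin m) := by
      exact_mod_cast Fintype.card_pos
    exact lt_of_le_of_lt h1 (mul_lt_mul_of_pos_right hlt h2)

end Pool.Agent.W888.UG
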