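import Pool.Agent.W888.UG.Ent

set_option autoImplicit false
set_option linter.unusedSectionVars false

/-!
Unique games, their pairwise semidefinite relaxation, branch-and-cut trees.
-/

namespace Pool.Agent.W888.UG

open Finset Matrix

/-- The vectors of a solution: the zero vector, the unit vector `z`, and `x w a` for the vertices
`w` and labels `a`. -/
def vec {W A D : Type} (z : D → ℝ) (x : W → A → D → ℝ) : Option (Option (W × A)) → D → ℝ
  | none => 0
  | some none => z
  | some (some p) => x p.1 p.2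

/-- The fractional points which the semidefinite relaxation does not exclude when it is used to
prove that the value of a unique game is less than `1 - ε`. The game has the edges `(s e, t e)`
between the vertex sets `U` and `V`, the constraint of the edge `e` says that the label of `t e` is
`π e` of the label of `s e`. The point `μ` (a number `μ w a` for every vertex `w` and label `a`)
belongs to the set if there are vectors `x w a` (in a finite-dimensional space) with squared lengths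
`μ w a`, pairwise orthogonal for every vertex and with a common unit vector `z` as their sum, such
that all triangle inequalities `⟨p - q, p - r⟩ ≥ 0` hold for `p`, `q`, `r` among all these vectors,
`z` and `0` (for `p = 0`: all inner products are nonnegative), and
`∑_e ∑_a ⟨x (s e) a, x (t e) (π e a)⟩ ≥ (1 - ε) |E|`. -/
def Relax {U V E A : Type} [Fintype E] [Fintype A] (s : E → U) (t : E → V)
    (π : E → Equiv.Perm A) (ε : ℝ) : Set (U ⊕ V → A → ℝ) :=
  {μ | ∃ (D : Type) (_ : Fintype D) (z : D → ℝ) (x : U ⊕ V → A → D → ℝ),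
    z ⬝ᵥ z = 1 ∧ (∀ w, ∑ a, x w a = z) ∧
    (∀ w a b, a ≠ b → x w a ⬝ᵥ x w b = 0) ∧
    (∀ i j k, 0 ≤ (vec z x i - vec z x j) ⬝ᵥ (vec z x i - vec z x k)) ∧
    (∀ w a, μ w a = x w a ⬝ᵥ x w a) ∧
    (1 - ε) * (Fintype.card E : ℝ) ≤
      ∑ e, ∑ a, x (Sum.inl (s e)) a ⬝ᵥ x (Sum.inr (t e)) (π e a)}

/-- Branch-and-cut trees. A node branches either on an integer disjunction `c ≤ b` or `c ≥ b + 1`,
with an integral linear form `c` and an integer `b`, or on a real disjunction `c < b` or `c ≥ b`,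
with a real linear form `c` and a real number `b`. -/
inductive Tree (W A : Type) : Type
  | leaf : Tree W A
  | int (c : W → A → ℤ) (b : ℤ) (l r : Tree W A) : Tree W A
  | real (c : W → A → ℝ) (b : ℝ) (l r : Tree W A) : Tree W A

/-- The number of leaves. -/
def Tree.leaves {W A : Type} : Tree W A → ℕ
  | .leaf => 1
  | .int _ _ l r => l.leaves + r.leaves
  | .real _ _ l r => l.leaves + r.leaves

/-- The tree proves that no labelling in `C` belongs to the relaxation `R`: at every leaf, no point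
of the relaxation satisfies all the branches above it. -/
def Tree.Proves {W A : Type} [Fintype W] [Fintype A] (R : Set (W → A → ℝ)) :
    Tree W A → Set (W → A → ℝ) → Prop
  | .leaf, C => ∀ μ ∈ C, μ ∉ R
  | .int c b l r, C =>
      l.Proves R (C ∩ {μ | ∑ w, ∑ a, (c w a : ℝ) * μ w a ≤ b}) ∧
      r.Proves R (C ∩ {μ | (b : ℝ) + 1 ≤ ∑ w, ∑ a, (c w a : ℝ) * μ w a})
  | .real c b l r, C =>
      l.Proves R (C ∩ {μ | ∑ w, ∑ a, c w a * μ w a < b}) ∧
      r.Proves R (C ∩ {μ | b ≤ ∑ w, ∑ a, c w a * μ w a})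

/-- A cutting-plane proof with split cuts, as a list of cuts `(c, b, d, β)`: the cut `d ≥ β` holds
for all points of the relaxation which satisfy all previous cuts (the set `C`) and one side of the
split `c ≤ b` or `c ≥ b + 1`, with an integral linear form `c` and an integer `b`; no point of the
relaxation satisfies all cuts. The Chvátal-Gomory cuts are the case `d = c`, `β = b + 1`. -/
def SplitProof {W A : Type} [Fintype W] [Fintype A] (R : Set (W → A → ℝ)) :
    List (((W → A → ℤ) × ℤ) × ((W → A → ℝ) × ℝ)) → Set (W → A → ℝ) → Prop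
  | [], C => ∀ μ ∈ C, μ ∉ R
  | p :: l, C =>
      (∀ μ ∈ C, μ ∈ R → (∑ w, ∑ a, (p.1.1 w a : ℝ) * μ w a ≤ p.1.2 ∨
        (p.1.2 : ℝ) + 1 ≤ ∑ w, ∑ a, (p.1.1 w a : ℝ) * μ w a) →
          p.2.2 ≤ ∑ w, ∑ a, p.2.1 w a * μ w a) ∧
      SplitProof R l (C ∩ {μ | p.2.2 ≤ ∑ w, ∑ a, p.2.1 w a * μ w a})

section trees

variable {W A : Type} [Fintype W] [Fintype A]

/-- A proof with `L` split cuts gives a tree with `2 L + 1` leaves. -/
theorem tree_of_split (R : Set (W → A → ℝ))
    (l : List (((W → A → ℤ) × ℤ) × ((W → A → ℝ) × ℝ))) : ∀ C : Set (W → A → ℝ),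
    SplitProof R l C → ∃ T : Tree W A, T.leaves = 2 * l.length + 1 ∧ T.Proves R C := by
  induction l with
  | nil =>
    intro C h
    exact ⟨Tree.leaf, rfl, h⟩
  | cons p l ih =>
    intro C h
    obtain ⟨T, hT, hP⟩ := ih _ h.2
    refine ⟨Tree.real p.2.1 p.2.2 (Tree.int p.1.1 p.1.2 Tree.leaf Tree.leaf) T, ?_, ⟨?_, ?_⟩, hP⟩
    · simp only [Tree.leaves, List.length_cons, hT]
      ring
    · rintro μ ⟨⟨hμ, hlt⟩, hc⟩ hR
      rw [Set.mem_ofPred_eq] at hlt hc
      exact absurd (h.1 μ hμ hR (Or.inl hc)) (not_le.2 hlt)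
    · rintro μ ⟨⟨hμ, hlt⟩, hc⟩ hR
      rw [Set.mem_ofPred_eq] at hlt hc
      exact absurd (h.1 μ hμ hR (Or.inr hc)) (not_le.2 hlt)

theorem isLinear (c : W → A → ℝ) :
    IsLinearMap ℝ fun μ : W → A → ℝ => ∑ w, ∑ a, c w a * μ w a := by
  constructor
  · intro x y
    rw [← Finset.sum_add_distrib]
    refine Finset.sum_congr rfl fun w _ => ?_
    rw [← Finset.sum_add_distrib]
    refine Finset.sum_congr rfl fun a _ => ?_
    simp only [Pi.add_apply]
    ring
  · intro r x
    rw [smul_eq_mul, Finset.mul_sum]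
    refine Finset.sum_congr rfl fun w _ => ?_
    rw [Finset.mul_sum]
    refine Finset.sum_congr rfl fun a _ => ?_
    simp only [Pi.smul_apply, smul_eq_mul]
    ring

theorem int_value (c : W → A → ℤ) (l : W → A) :
    ∃ m : ℤ, ∑ w, ∑ a, (c w a : ℝ) * lab l w a = m := by
  classical
  refine ⟨∑ w, c w (l w), ?_⟩
  push_cast
  refine Finset.sum_congr rfl fun w _ => ?_
  simp only [lab_apply]
  simp

/-- The leaves of a branch-and-cut proof are convex sets which cover all labellings. -/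
theorem cover_of_tree (R : Set (W → A → ℝ)) (T : Tree W A) :
    ∀ C : Set (W → A → ℝ), Convex ℝ C → T.Proves R C →
      ∃ F : List (Set (W → A → ℝ)), F.length = T.leaves ∧ (∀ S ∈ F, Convex ℝ S) ∧
        (∀ S ∈ F, ∀ μ ∈ S, μ ∉ R) ∧ ∀ l : W → A, lab l ∈ C → ∃ S ∈ F, lab l ∈ S := by
  induction T with
  | leaf =>
    intro C hC h
    exact ⟨[C], rfl, by simpa using hC, by simpa [Tree.Proves] using h, fun l hl => ⟨C, by simp, hl⟩⟩
  | int c b l r ihl ihr =>
    intro C hC h
    obtain ⟨F1, h1, h2, h3, h4⟩ := ihl _ (hC.inter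
      (convex_halfSpace_le (isLinear fun w a => (c w a : ℝ)) (b : ℝ))) h.1
    obtain ⟨F2, g1, g2, g3, g4⟩ := ihr _ (hC.inter
      (convex_halfSpace_ge (isLinear fun w a => (c w a : ℝ)) ((b : ℝ) + 1))) h.2
    refine ⟨F1 ++ F2, ?_, ?_, ?_, ?_⟩
    · rw [List.length_append, h1, g1]; rfl
    · intro S hS
      rcases List.mem_append.1 hS with hS | hS
      · exact h2 S hS
      · exact g2 S hS
    · intro S hS
      rcases List.mem_append.1 hS with hS | hS
      · exact h3 S hS
      · exact g3 S hS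
    · intro l' hl
      obtain ⟨m, hm⟩ := int_value c l'
      rcases le_or_gt m b with hmb | hmb
      · obtain ⟨S, hS, hlS⟩ := h4 l' ⟨hl, by
          rw [Set.mem_ofPred_eq, hm]; exact_mod_cast hmb⟩
        exact ⟨S, List.mem_append.2 (Or.inl hS), hlS⟩
      · obtain ⟨S, hS, hlS⟩ := g4 l' ⟨hl, by
          rw [Set.mem_ofPred_eq, hm]; exact_mod_cast (Int.add_one_le_iff.2 hmb)⟩
        exact ⟨S, List.mem_append.2 (Or.inr hS), hlS⟩
  | real c b l r ihl ihr =>
    intro C hC h
    obtain ⟨F1, h1, h2, h3, h4⟩ := ihl _ (hC.inter (convex_halfSpace_lt (isLinear c) b)) h.1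
    obtain ⟨F2, g1, g2, g3, g4⟩ := ihr _ (hC.inter (convex_halfSpace_ge (isLinear c) b)) h.2
    refine ⟨F1 ++ F2, ?_, ?_, ?_, ?_⟩
    · rw [List.length_append, h1, g1]; rfl
    · intro S hS
      rcases List.mem_append.1 hS with hS | hS
      · exact h2 S hS
      · exact g2 S hS
    · intro S hS
      rcases List.mem_append.1 hS with hS | hS
      · exact h3 S hS
      · exact g3 S hS
    · intro l' hl
      rcases lt_or_ge (∑ w, ∑ a, c w a * lab l' w a) b with hmb | hmb
      · obtain ⟨S, hS, hlS⟩ := h4 l' ⟨hl, hmb⟩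
        exact ⟨S, List.mem_append.2 (Or.inl hS), hlS⟩
      · obtain ⟨S, hS, hlS⟩ := g4 l' ⟨hl, hmb⟩
        exact ⟨S, List.mem_append.2 (Or.inr hS), hlS⟩

end trees

/-! ### Mixtures of solutions -/

section mix

variable {U V E A : Type} [Fintype E] [Fintype A]

/-- solutions with marginals `μ` and value at least `v` -/
def Sol (s : E → U) (t : E → V) (π : E → Equiv.Perm A) (μ : U ⊕ V → A → ℝ) (v : ℝ) : Prop :=
  ∃ (D : Type) (_ : Fintype D) (z : D → ℝ) (x : U ⊕ V → A → D → ℝ),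
    z ⬝ᵥ z = 1 ∧ (∀ w, ∑ a, x w a = z) ∧
    (∀ w a b, a ≠ b → x w a ⬝ᵥ x w b = 0) ∧
    (∀ i j k, 0 ≤ (vec z x i - vec z x j) ⬝ᵥ (vec z x i - vec z x k)) ∧
    (∀ w a, μ w a = x w a ⬝ᵥ x w a) ∧
    v ≤ ∑ e, ∑ a, x (Sum.inl (s e)) a ⬝ᵥ x (Sum.inr (t e)) (π e a)

theorem mem_relax {s : E → U} {t : E → V} {π : E → Equiv.Perm A} {μ : U ⊕ V → A → ℝ} {ε v : ℝ}
    (h : Sol s t π μ v) (hv : (1 - ε) * (Fintype.card E : ℝ) ≤ v) : μ ∈ Relax s t π ε := by
  obtain ⟨D, i, z, x, h1, h2, h3, h4, h5, h6⟩ := h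
  exact ⟨D, i, z, x, h1, h2, h3, h4, h5, hv.trans h6⟩

theorem vec_pos {W D : Type} [Fintype D] {z : D → ℝ} {x : W → A → D → ℝ}
    (h : ∀ i j k, 0 ≤ (vec z x i - vec z x j) ⬝ᵥ (vec z x i - vec z x k))
    (j k : Option (Option (W × A))) : 0 ≤ vec z x j ⬝ᵥ vec z x k := by
  have h1 := h none j k
  have h2 : vec z x none = 0 := rfl
  rw [h2, zero_sub, zero_sub, neg_dotProduct, dotProduct_neg, neg_neg] at h1
  exact h1

theorem dot_sigma {J : Type} [Fintype J] {D : J → Type} [∀ j, Fintype (D j)]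
    (p : J → ℝ) (hp : ∀ j, 0 ≤ p j) (f g : ∀ j, D j → ℝ) :
    (fun d : Σ j, D j => Real.sqrt (p d.1) * f d.1 d.2) ⬝ᵥ
      (fun d : Σ j, D j => Real.sqrt (p d.1) * g d.1 d.2) = ∑ j, p j * (f j ⬝ᵥ g j) := by
  rw [dotProduct, Fintype.sum_sigma]
  refine Finset.sum_congr rfl fun j _ => ?_
  rw [dotProduct, Finset.mul_sum]
  refine Finset.sum_congr rfl fun d _ => ?_
  have := Real.mul_self_sqrt (hp j)
  calc Real.sqrt (p j) * f j d * (Real.sqrt (p j) * g j d) =
        (Real.sqrt (p j) * Real.sqrt (p j)) * (f j d * g j d) := by ring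
    _ = p j * (f j d * g j d) := by rw [this]

theorem sol_mix (s : E → U) (t : E → V) (π : E → Equiv.Perm A) {J : Type} [Fintype J]
    (p : J → ℝ) (hp : ∀ j, 0 ≤ p j) (hp1 : ∑ j, p j = 1) (μ : J → U ⊕ V → A → ℝ) (v : J → ℝ)
    (h : ∀ j, Sol s t π (μ j) (v j)) :
    Sol s t π (fun w a => ∑ j, p j * μ j w a) (∑ j, p j * v j) := by
  choose D iD z x h1 h2 h3 h4 h5 h6 using h
  have hd : ∀ w a w' b, (fun d : Σ j, D j => Real.sqrt (p d.1) * x d.1 w a d.2) ⬝ᵥ
      (fun d : Σ j, D j => Real.sqrt (p d.1) * x d.1 w' b d.2) =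
      ∑ j, p j * (x j w a ⬝ᵥ x j w' b) := fun w a w' b =>
    dot_sigma p hp (fun j => x j w a) (fun j => x j w' b)
  refine ⟨Σ j, D j, inferInstance, fun d => Real.sqrt (p d.1) * z d.1 d.2,
    fun w a d => Real.sqrt (p d.1) * x d.1 w a d.2, ?_, ?_, ?_, ?_, ?_, ?_⟩
  · rw [dot_sigma p hp]
    simp only [h1, mul_one, hp1]
  · intro w
    funext d
    rw [Finset.sum_apply, ← Finset.mul_sum, ← Finset.sum_apply, h2]
  · intro w a b hab
    beta_reduce
    rw [hd]
    exact Finset.sum_eq_zero fun j _ => by rw [h3 j w a b hab, mul_zero]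
  · have hv : ∀ i, vec (fun d : Σ j, D j => Real.sqrt (p d.1) * z d.1 d.2)
        (fun (w : U ⊕ V) (a : A) (d : Σ j, D j) => Real.sqrt (p d.1) * x d.1 w a d.2) i =
        fun d : Σ j, D j => Real.sqrt (p d.1) * vec (z d.1) (x d.1) i d.2 := by
      intro i
      rcases i with - | - | i
      · funext d
        simp [vec]
      · rfl
      · rfl
    intro i j k
    rw [hv, hv, hv]
    have hw : ∀ i j, ((fun d : Σ j, D j => Real.sqrt (p d.1) * vec (z d.1) (x d.1) i d.2) -
        fun d : Σ j, D j => Real.sqrt (p d.1) * vec (z d.1) (x d.1) j d.2) =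
        fun d : Σ j, D j => Real.sqrt (p d.1) *
          (vec (z d.1) (x d.1) i - vec (z d.1) (x d.1) j) d.2 := by
      intro i j
      funext d
      simp only [Pi.sub_apply]
      ring
    rw [hw, hw, dot_sigma p hp (fun l => vec (z l) (x l) i - vec (z l) (x l) j)
      (fun l => vec (z l) (x l) i - vec (z l) (x l) k)]
    exact Finset.sum_nonneg fun l _ => mul_nonneg (hp l) (h4 l i j k)
  · intro w a
    beta_reduce
    rw [hd]
    exact Finset.sum_congr rfl fun j _ => by rw [h5 j w a]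
  · beta_reduce
    simp only [hd]
    have h7 : ∑ e, ∑ a, ∑ j, p j * (x j (Sum.inl (s e)) a ⬝ᵥ x j (Sum.inr (t e)) (π e a)) =
        ∑ j, p j * ∑ e, ∑ a, x j (Sum.inl (s e)) a ⬝ᵥ x j (Sum.inr (t e)) (π e a) := by
      simp only [Finset.mul_sum]
      symm
      rw [Finset.sum_comm]
      refine Finset.sum_congr rfl fun e _ => ?_
      rw [Finset.sum_comm]
    rw [h7]
    exact Finset.sum_le_sum fun j _ => mul_le_mul_of_nonneg_left (h6 j) (hp j)

end mix

end Pool.Agent.W888.UG
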