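import Mathlib

set_option autoImplicit false
set_option linter.unusedSectionVars false

/-!
Large sets of labellings have almost uniform marginals at almost all vertices.
-/

namespace Pool.Agent.W888.UG

open Finset

/-- The point of a labelling: the indicator vector of its values. -/
noncomputable def lab {W A : Type} (l : W → A) : W → A → ℝ := by
  classical exact fun w a => if l w = a then 1 else 0

section

variable {W A : Type} [Fintype W] [Fintype A] [DecidableEq A] [DecidableEq W]

/-- The marginals of the uniform distribution on a set of labellings. -/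
noncomputable def mar (L : Finset (W → A)) : W → A → ℝ := fun w a =>
  ((L.filter fun l => l w = a).card : ℝ) / L.card

theorem lab_apply (l : W → A) (w : W) (a : A) : lab l w a = if l w = a then 1 else 0 := by
  unfold lab
  split_ifs <;> rfl

theorem mar_eq_sum (L : Finset (W → A)) :
    mar L = ∑ l ∈ L, (1 / (L.card : ℝ)) • lab l := by
  funext w a
  rw [Finset.sum_apply, Finset.sum_apply]
  simp only [Pi.smul_apply, smul_eq_mul, lab_apply]
  rw [mar, Finset.card_filter]
  push_cast
  rw [Finset.sum_div]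
  refine Finset.sum_congr rfl fun l _ => ?_
  split_ifs <;> simp

theorem mar_mem {C : Set (W → A → ℝ)} (hC : Convex ℝ C) {L : Finset (W → A)} (hL : L.Nonempty)
    (h : ∀ l ∈ L, lab l ∈ C) : mar L ∈ C := by
  rw [mar_eq_sum]
  have h0 : (0 : ℝ) < L.card := by exact_mod_cast hL.card_pos
  refine hC.sum_mem (fun l _ => by positivity) ?_ h
  rw [Finset.sum_const, nsmul_eq_mul]
  field_simp

theorem mar_nonneg (L : Finset (W → A)) (w : W) (a : A) : 0 ≤ mar L w a := by
  unfold mar
  positivity

theorem mar_sum {L : Finset (W → A)} (hL : L.Nonempty) (w : W) : ∑ a, mar L w a = 1 := by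
  have h0 : (0 : ℝ) < L.card := by exact_mod_cast hL.card_pos
  unfold mar
  rw [← Finset.sum_div, ← Nat.cast_sum]
  have : ∑ a : A, (L.filter fun l => l w = a).card = L.card := by
    rw [← Finset.card_eq_sum_card_fiberwise (f := fun l : W → A => l w) (t := Finset.univ)]
    intro x _
    simp
  rw [this, div_self h0.ne']

theorem mar_pos {L : Finset (W → A)} {l : W → A} (hl : l ∈ L) (w : W) : 0 < mar L w (l w) := by
  have h0 : (0 : ℝ) < L.card := by exact_mod_cast Finset.card_pos.2 ⟨l, hl⟩
  unfold mar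
  apply div_pos _ h0
  have : 0 < (L.filter fun l' => l' w = l w).card :=
    Finset.card_pos.2 ⟨l, Finset.mem_filter.2 ⟨hl, rfl⟩⟩
  exact_mod_cast this

/-- subadditivity of entropy -/
theorem entropy_le {L : Finset (W → A)} (hL : L.Nonempty) :
    Real.log L.card + ∑ w, ∑ a, mar L w a * Real.log (mar L w a) ≤ 0 := by
  have h0 : (0 : ℝ) < L.card := by exact_mod_cast hL.card_pos
  have hprod : ∀ l ∈ L, 0 < ∏ w, mar L w (l w) := fun l hl =>
    Finset.prod_pos fun w _ => mar_pos hl w
  have h1 : ∑ l ∈ L, (1 / (L.card : ℝ)) * Real.log (L.card * ∏ w, mar L w (l w)) ≤ 0 := by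
    have h2 : ∀ l ∈ L, (1 / (L.card : ℝ)) * Real.log (L.card * ∏ w, mar L w (l w)) ≤
        (∏ w, mar L w (l w)) - 1 / L.card := by
      intro l hl
      have h3 := Real.log_le_sub_one_of_pos (mul_pos h0 (hprod l hl))
      have h4 : (1 / (L.card : ℝ)) * (L.card * (∏ w, mar L w (l w)) - 1) =
          (∏ w, mar L w (l w)) - 1 / L.card := by
        field_simp
      rw [← h4]
      exact mul_le_mul_of_nonneg_left h3 (by positivity)
    refine (Finset.sum_le_sum h2).trans ?_
    rw [Finset.sum_sub_distrib, Finset.sum_const, nsmul_eq_mul]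
    have h5 : ∑ l ∈ L, ∏ w, mar L w (l w) ≤ 1 := by
      have h6 : ∑ l : W → A, ∏ w, mar L w (l w) = 1 := by
        have := (Finset.prod_univ_sum (fun _ : W => (Finset.univ : Finset A))
          (fun w a => mar L w a))
        rw [Fintype.piFinset_univ] at this
        rw [← this]
        exact Finset.prod_eq_one fun w _ => mar_sum hL w
      rw [← h6]
      exact Finset.sum_le_sum_of_subset_of_nonneg (Finset.subset_univ _) fun l _ _ =>
        Finset.prod_nonneg fun w _ => mar_nonneg L w (l w)
    have h7 : (L.card : ℝ) * (1 / L.card) = 1 := by field_simp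
    rw [h7]
    linarith
  have h8 : ∑ l ∈ L, (1 / (L.card : ℝ)) * Real.log (L.card * ∏ w, mar L w (l w)) =
      Real.log L.card + ∑ w, ∑ a, mar L w a * Real.log (mar L w a) := by
    have h9 : ∀ l ∈ L, (1 / (L.card : ℝ)) * Real.log (L.card * ∏ w, mar L w (l w)) =
        (1 / (L.card : ℝ)) * Real.log L.card + ∑ w, (1 / (L.card : ℝ)) *
          Real.log (mar L w (l w)) := by
      intro l hl
      rw [Real.log_mul h0.ne' (hprod l hl).ne', Real.log_prod (fun w _ => (mar_pos hl w).ne'),
        mul_add, Finset.mul_sum]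
    rw [Finset.sum_congr rfl h9, Finset.sum_add_distrib, Finset.sum_const, nsmul_eq_mul]
    congr 1
    · field_simp
    · rw [Finset.sum_comm]
      refine Finset.sum_congr rfl fun w _ => ?_
      rw [← Finset.sum_fiberwise_of_maps_to (s := L) (t := Finset.univ)
        (g := fun l : W → A => l w) (fun l _ => Finset.mem_univ _)]
      refine Finset.sum_congr rfl fun a _ => ?_
      have h10 : ∀ l ∈ L.filter (fun l => l w = a), (1 / (L.card : ℝ)) *
          Real.log (mar L w (l w)) = (1 / (L.card : ℝ)) * Real.log (mar L w a) := by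
        intro l hl
        rw [(Finset.mem_filter.1 hl).2]
      rw [Finset.sum_congr rfl h10, Finset.sum_const, nsmul_eq_mul]
      unfold mar
      ring
  rw [← h8]
  exact h1

end

section

variable {A : Type} [Fintype A]

/-- the deficit of entropy of a distribution -/
noncomputable def defi (p : A → ℝ) : ℝ :=
  Real.log (Fintype.card A) + ∑ a, p a * Real.log (p a)

theorem term_ge {x v : ℝ} (hx : 0 ≤ x) (hv : 0 < v) :
    2 * x - 2 * Real.sqrt (x * v) ≤ x * (Real.log x - Real.log v) := by
  rcases hx.eq_or_lt with h | h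
  · rw [← h]; simp
  · have h1 : 0 < Real.sqrt (v / x) := Real.sqrt_pos.2 (div_pos hv h)
    have h2 := Real.log_le_sub_one_of_pos h1
    have h3 : Real.log (Real.sqrt (v / x)) = (Real.log v - Real.log x) / 2 := by
      rw [Real.log_sqrt (div_pos hv h).le, Real.log_div hv.ne' h.ne']
    rw [h3] at h2
    have h4 : Real.sqrt (x * v) = x * Real.sqrt (v / x) := by
      have : x * v = x ^ 2 * (v / x) := by field_simp
      rw [this, Real.sqrt_mul (sq_nonneg x), Real.sqrt_sq h.le]
    rw [h4]
    nlinarith [mul_le_mul_of_nonneg_left h2 h.le]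

theorem defi_ge [Nonempty A] (p : A → ℝ) (hp : ∀ a, 0 ≤ p a) (hs : ∑ a, p a = 1) :
    ∑ a, (Real.sqrt (p a) - Real.sqrt (1 / Fintype.card A)) ^ 2 ≤ defi p := by
  have hq : (0 : ℝ) < Fintype.card A := by exact_mod_cast Fintype.card_pos
  have hv : (0 : ℝ) < 1 / Fintype.card A := by positivity
  have h1 : defi p = ∑ a, p a * (Real.log (p a) - Real.log (1 / Fintype.card A)) := by
    simp only [mul_sub]
    rw [Finset.sum_sub_distrib, ← Finset.sum_mul, hs, one_div, Real.log_inv, defi]
    ring
  have h2 : ∀ a, (Real.sqrt (p a) - Real.sqrt (1 / Fintype.card A)) ^ 2 =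
      (2 * p a - 2 * Real.sqrt (p a * (1 / Fintype.card A))) + (1 / Fintype.card A - p a) := by
    intro a
    rw [sub_sq, Real.sq_sqrt (hp a), Real.sq_sqrt hv.le, Real.sqrt_mul (hp a)]
    ring
  simp only [h2]
  rw [Finset.sum_add_distrib, Finset.sum_sub_distrib (f := fun _ => (1 : ℝ) / Fintype.card A), hs,
    Finset.sum_const, Finset.card_univ, nsmul_eq_mul, h1]
  have h3 : (Fintype.card A : ℝ) * (1 / Fintype.card A) = 1 := by field_simp
  rw [h3, sub_self, add_zero]
  exact Finset.sum_le_sum fun a _ => term_ge (hp a) hv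

theorem defi_nonneg [Nonempty A] (p : A → ℝ) (hp : ∀ a, 0 ≤ p a) (hs : ∑ a, p a = 1) :
    0 ≤ defi p :=
  (Finset.sum_nonneg fun _ _ => sq_nonneg _).trans (defi_ge p hp hs)

/-- small deficit: every value is at least `(1 - τ) / q` -/
theorem near_uniform [Nonempty A] (p : A → ℝ) (hp : ∀ a, 0 ≤ p a) (hs : ∑ a, p a = 1) (τ : ℝ)
    (hτ : 0 ≤ τ) (hd : defi p ≤ τ ^ 2 / (4 * Fintype.card A)) (hτ1 : τ ≤ 1) (a : A) :
    (1 - τ) * (1 / Fintype.card A) ≤ p a := by
  have hq : (0 : ℝ) < Fintype.card A := by exact_mod_cast Fintype.card_pos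
  have hv : (0 : ℝ) < 1 / Fintype.card A := by positivity
  have h1 : (Real.sqrt (p a) - Real.sqrt (1 / Fintype.card A)) ^ 2 ≤
      τ ^ 2 / (4 * Fintype.card A) :=
    (Finset.single_le_sum (f := fun a => (Real.sqrt (p a) - Real.sqrt (1 / Fintype.card A)) ^ 2)
      (fun _ _ => sq_nonneg _) (Finset.mem_univ a)).trans ((defi_ge p hp hs).trans hd)
  have h2 : τ ^ 2 / (4 * Fintype.card A) = (τ / 2 * Real.sqrt (1 / Fintype.card A)) ^ 2 := by
    rw [mul_pow, Real.sq_sqrt hv.le]
    field_simp
    ring
  rw [h2] at h1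
  have hs0 : 0 ≤ Real.sqrt (1 / Fintype.card A) := Real.sqrt_nonneg _
  have h3' : |Real.sqrt (p a) - Real.sqrt (1 / Fintype.card A)| ≤
      τ / 2 * Real.sqrt (1 / Fintype.card A) := abs_le_of_sq_le_sq h1 (by positivity)
  have h4 := (abs_le.1 h3').1
  have h5 : (1 - τ / 2) * Real.sqrt (1 / Fintype.card A) ≤ Real.sqrt (p a) := by linarith
  have h6 : ((1 - τ / 2) * Real.sqrt (1 / Fintype.card A)) ^ 2 ≤ p a := by
    have h7 : 0 ≤ (1 - τ / 2) * Real.sqrt (1 / Fintype.card A) :=
      mul_nonneg (by linarith) hs0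
    calc ((1 - τ / 2) * Real.sqrt (1 / Fintype.card A)) ^ 2 ≤ Real.sqrt (p a) ^ 2 :=
          pow_le_pow_left₀ h7 h5 2
      _ = p a := Real.sq_sqrt (hp a)
  rw [mul_pow, Real.sq_sqrt hv.le] at h6
  refine le_trans ?_ h6
  apply mul_le_mul_of_nonneg_right _ hv.le
  nlinarith [sq_nonneg τ]

end

section

variable {W A : Type} [Fintype W] [Fintype A] [DecidableEq A] [DecidableEq W]

theorem sum_defi {L : Finset (W → A)} (hL : L.Nonempty) :
    ∑ w, defi (mar L w) ≤ Fintype.card W * Real.log (Fintype.card A) - Real.log L.card := by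
  have h := entropy_le hL
  unfold defi
  rw [Finset.sum_add_distrib, Finset.sum_const, Finset.card_univ, nsmul_eq_mul]
  linarith

/-- In a cover of all labellings by `K` convex sets, one set contains a point with almost uniform
marginals at all vertices outside a set of at most `(log K) 4 q / τ ^ 2` vertices. -/
theorem exists_near [Nonempty A] (F : List (Set (W → A → ℝ))) (hconv : ∀ C ∈ F, Convex ℝ C)
    (hcov : ∀ l : W → A, ∃ C ∈ F, lab l ∈ C) (τ : ℝ) (hτ : 0 < τ) (hτ1 : τ ≤ 1) :
    ∃ C ∈ F, ∃ μ ∈ C, ∃ Bd : Finset W,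
      (Bd.card : ℝ) * (τ ^ 2 / (4 * Fintype.card A)) ≤ Real.log F.length ∧
      (∀ w a, 0 ≤ μ w a) ∧ (∀ w, ∑ a, μ w a = 1) ∧
      ∀ w ∉ Bd, ∀ a, (1 - τ) * (1 / Fintype.card A) ≤ μ w a := by
  classical
  have hq : (0 : ℝ) < Fintype.card A := by exact_mod_cast Fintype.card_pos
  -- pigeonhole
  obtain ⟨C, hC, hbig⟩ : ∃ C ∈ F, (Fintype.card (W → A) : ℝ) ≤
      F.length * ((Finset.univ.filter fun l : W → A => lab l ∈ C).card : ℝ) := by
    by_contra hcon
    push Not at hcon
    have h1 : (Fintype.card (W → A) : ℝ) ≤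
        ∑ i : Fin F.length, ((Finset.univ.filter fun l : W → A => lab l ∈ F.get i).card : ℝ) := by
      rw [← Finset.card_univ]
      have h2 : (Finset.univ : Finset (W → A)) ⊆ Finset.univ.biUnion fun i : Fin F.length =>
          Finset.univ.filter fun l : W → A => lab l ∈ F.get i := by
        intro l _
        obtain ⟨C, hC, hl⟩ := hcov l
        obtain ⟨i, hi⟩ := List.get_of_mem hC
        rw [Finset.mem_biUnion]
        refine ⟨i, Finset.mem_univ _, ?_⟩
        rw [Finset.mem_filter]
        exact ⟨Finset.mem_univ _, by rw [hi]; exact hl⟩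
      calc ((Finset.univ : Finset (W → A)).card : ℝ) ≤
            ((Finset.univ.biUnion fun i : Fin F.length =>
              Finset.univ.filter fun l : W → A => lab l ∈ F.get i).card : ℝ) := by
              exact_mod_cast Finset.card_le_card h2
        _ ≤ _ := by exact_mod_cast Finset.card_biUnion_le
    have hlen : 0 < F.length := by
      rcases Nat.eq_zero_or_pos F.length with h0 | h0
      · obtain ⟨a⟩ := ‹Nonempty A›
        obtain ⟨C, hC, -⟩ := hcov (fun _ => a)
        rw [List.length_eq_zero_iff] at h0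
        rw [h0] at hC
        simp at hC
      · exact h0
    have h3 : (F.length : ℝ) * ∑ i : Fin F.length,
        ((Finset.univ.filter fun l : W → A => lab l ∈ F.get i).card : ℝ) <
          ∑ _i : Fin F.length, (Fintype.card (W → A) : ℝ) := by
      rw [Finset.mul_sum]
      apply Finset.sum_lt_sum_of_nonempty
      · exact ⟨⟨0, hlen⟩, Finset.mem_univ _⟩
      · intro i _
        exact hcon _ (List.get_mem _ _)
    rw [Finset.sum_const, Finset.card_univ, Fintype.card_fin, nsmul_eq_mul] at h3
    have h4 : (F.length : ℝ) * (Fintype.card (W → A) : ℝ) ≤ (F.length : ℝ) *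
        ∑ i : Fin F.length, ((Finset.univ.filter fun l : W → A => lab l ∈ F.get i).card : ℝ) :=
      mul_le_mul_of_nonneg_left h1 (Nat.cast_nonneg _)
    linarith
  obtain ⟨L, hLdef⟩ : ∃ L : Finset (W → A), L = Finset.univ.filter fun l : W → A => lab l ∈ C :=
    ⟨_, rfl⟩
  rw [← hLdef] at hbig
  have hcard : (0 : ℝ) < Fintype.card (W → A) := by exact_mod_cast Fintype.card_pos
  have hLpos : (0 : ℝ) < L.card := by
    by_contra hcon
    have : (L.card : ℝ) = 0 := le_antisymm (not_lt.1 hcon) (Nat.cast_nonneg _)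
    rw [this, mul_zero] at hbig
    linarith
  have hFpos : (0 : ℝ) < F.length := by
    by_contra hcon
    have : (F.length : ℝ) = 0 := le_antisymm (not_lt.1 hcon) (Nat.cast_nonneg _)
    rw [this, zero_mul] at hbig
    linarith
  have hL : L.Nonempty := Finset.card_pos.1 (by exact_mod_cast hLpos)
  have hlog : Fintype.card W * Real.log (Fintype.card A) - Real.log L.card ≤
      Real.log F.length := by
    have h1 := Real.log_le_log hcard hbig
    rw [Real.log_mul hFpos.ne' hLpos.ne', Fintype.card_fun] at h1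
    push_cast at h1
    rw [Real.log_pow] at h1
    linarith
  obtain ⟨κ, hκ⟩ : ∃ κ : ℝ, κ = τ ^ 2 / (4 * Fintype.card A) := ⟨_, rfl⟩
  have hκ0 : 0 < κ := by rw [hκ]; positivity
  refine ⟨C, hC, mar L, mar_mem (hconv C hC) hL (fun l hl => ?_),
    Finset.univ.filter fun w => κ < defi (mar L w), ?_, mar_nonneg L, mar_sum hL, ?_⟩
  · rw [hLdef, Finset.mem_filter] at hl
    exact hl.2
  · rw [← hκ]
    calc ((Finset.univ.filter fun w => κ < defi (mar L w)).card : ℝ) * κ
        = ∑ w ∈ Finset.univ.filter fun w => κ < defi (mar L w), κ := by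
          rw [Finset.sum_const, nsmul_eq_mul]
      _ ≤ ∑ w ∈ Finset.univ.filter fun w => κ < defi (mar L w), defi (mar L w) :=
          Finset.sum_le_sum fun w hw => (Finset.mem_filter.1 hw).2.le
      _ ≤ ∑ w, defi (mar L w) := Finset.sum_le_sum_of_subset_of_nonneg (Finset.subset_univ _)
          fun w _ _ => defi_nonneg _ (mar_nonneg L w) (mar_sum hL w)
      _ ≤ _ := (sum_defi hL).trans hlog
  · intro w hw a
    rw [Finset.mem_filter, not_and, not_lt] at hw
    exact near_uniform _ (mar_nonneg L w) (mar_sum hL w) τ hτ.le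
      (by rw [← hκ]; exact hw (Finset.mem_univ _)) hτ1 a

end

end Pool.Agent.W888.UG
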