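import Pool.Agent.W888.UG.Model

set_option autoImplicit false
set_option linter.unusedSectionVars false

/-!
Branch-and-cut proofs for unique games are exponential whenever the semidefinite relaxation has a
solution with uniform marginals.
-/

namespace Pool.Agent.W888.UG

open Finset Matrix

section

variable {U V E A : Type} [Fintype U] [Fintype V] [Fintype E] [Fintype A] [DecidableEq U]
  [DecidableEq V] [DecidableEq A]

theorem dot_le (D : Type) [Fintype D] (u v : D → ℝ) : u ⬝ᵥ v ≤ (u ⬝ᵥ u + v ⬝ᵥ v) / 2 := by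
  have h : 0 ≤ (u - v) ⬝ᵥ (u - v) := Finset.sum_nonneg fun _ _ => mul_self_nonneg _
  rw [sub_dotProduct, dotProduct_sub, dotProduct_sub, dotProduct_comm v u] at h
  linarith

/-- a labelling is a solution -/
theorem sol_lab (s : E → U) (t : E → V) (π : E → Equiv.Perm A) (w : U ⊕ V → A) :
    Sol s t π (lab w) 0 := by
  have hd : ∀ c d : ℝ, (fun _ : Unit => c) ⬝ᵥ (fun _ : Unit => d) = c * d := by
    intro c d
    simp [dotProduct]
  refine ⟨Unit, inferInstance, fun _ => 1, fun u a _ => lab w u a, ?_, ?_, ?_, ?_, ?_, ?_⟩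
  · rw [hd, one_mul]
  · intro u
    funext d
    rw [Finset.sum_apply]
    simp [lab_apply]
  · intro u a b hab
    beta_reduce
    rw [hd, lab_apply, lab_apply]
    by_cases h1 : w u = a
    · have h2 : w u ≠ b := fun h => hab (h1.symm.trans h)
      rw [if_neg h2, mul_zero]
    · rw [if_neg h1, zero_mul]
  · have hv : ∀ i, ∃ c : ℝ, (c = 0 ∨ c = 1) ∧
        vec (fun _ : Unit => 1) (fun u a _ => lab w u a) i = fun _ => c := by
      intro i
      rcases i with - | - | i
      · exact ⟨0, Or.inl rfl, rfl⟩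
      · exact ⟨1, Or.inr rfl, rfl⟩
      · refine ⟨lab w i.1 i.2, ?_, rfl⟩
        rw [lab_apply]
        split_ifs
        · exact Or.inr rfl
        · exact Or.inl rfl
    intro i j k
    obtain ⟨c1, h1, e1⟩ := hv i
    obtain ⟨c2, h2, e2⟩ := hv j
    obtain ⟨c3, h3, e3⟩ := hv k
    rw [e1, e2, e3]
    have e4 : ∀ c d : ℝ, ((fun _ : Unit => c) - fun _ => d) = fun _ => c - d := fun _ _ => rfl
    rw [e4, e4, hd]
    rcases h1 with rfl | rfl <;> rcases h2 with rfl | rfl <;> rcases h3 with rfl | rfl <;>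
      norm_num
  · intro u a
    beta_reduce
    rw [hd, lab_apply]
    split_ifs <;> norm_num
  · refine Finset.sum_nonneg fun e _ => Finset.sum_nonneg fun a _ => ?_
    beta_reduce
    rw [hd, lab_apply, lab_apply]
    split_ifs <;> norm_num

/-- the number of edges which touch a set of vertices -/
def touch (s : E → U) (t : E → V) (Bd : Finset (U ⊕ V)) : Finset E :=
  Finset.univ.filter fun e => Sum.inl (s e) ∈ Bd ∨ Sum.inr (t e) ∈ Bd

/-- fixing the labels in a set of vertices -/
theorem sol_fix (s : E → U) (t : E → V) (π : E → Equiv.Perm A) (v : ℝ)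
    (h : Sol s t π (fun _ _ => 1 / (Fintype.card A : ℝ)) v) [Nonempty A] (Bd : Finset (U ⊕ V))
    (w : U ⊕ V → A) :
    Sol s t π (fun u a => if u ∈ Bd then (if w u = a then 1 else 0) else 1 / (Fintype.card A : ℝ))
      (v - (touch s t Bd).card) := by
  classical
  obtain ⟨D, iD, z, x, h1, h2, h3, h4, h5, h6⟩ := h
  have hq : (0 : ℝ) < Fintype.card A := by exact_mod_cast Fintype.card_pos
  have h4' : ∀ u a u' b, 0 ≤ x u a ⬝ᵥ x u' b := fun u a u' b =>
    vec_pos h4 (some (some (u, a))) (some (some (u', b)))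
  have hzx : ∀ u a, 0 ≤ z ⬝ᵥ x u a := fun u a => vec_pos h4 (some none) (some (some (u, a)))
  have hxz : ∀ u a, 0 ≤ x u a ⬝ᵥ z := fun u a => vec_pos h4 (some (some (u, a))) (some none)
  refine ⟨D, iD, z, fun u a => if u ∈ Bd then (if w u = a then z else 0) else x u a, h1, ?_, ?_,
    ?_, ?_, ?_⟩
  · intro u
    by_cases hu : u ∈ Bd
    · simp [hu]
    · simp only [hu, if_false]
      exact h2 u
  · intro u a b hab
    by_cases hu : u ∈ Bd
    · simp only [hu, if_true]
      by_cases h7 : w u = a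
      · have h8 : w u ≠ b := fun h => hab (h7.symm.trans h)
        rw [if_neg h8, dotProduct_zero]
      · rw [if_neg h7, zero_dotProduct]
    · simp only [hu, if_false]
      exact h3 u a b hab
  · have hv : ∀ i, ∃ j, vec z (fun u a => if u ∈ Bd then (if w u = a then z else 0) else x u a) i =
        vec z x j := by
      intro i
      rcases i with - | - | i
      · exact ⟨none, rfl⟩
      · exact ⟨some none, rfl⟩
      · by_cases hu : i.1 ∈ Bd
        · by_cases hw : w i.1 = i.2
          · exact ⟨some none, by simp [vec, hu, hw]⟩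
          · exact ⟨none, by simp [vec, hu, hw]⟩
        · exact ⟨some (some i), by simp [vec, hu]⟩
    intro i j k
    obtain ⟨i', hi⟩ := hv i
    obtain ⟨j', hj⟩ := hv j
    obtain ⟨k', hk⟩ := hv k
    rw [hi, hj, hk]
    exact h4 i' j' k'
  · intro u a
    by_cases hu : u ∈ Bd
    · simp only [hu, if_true]
      split_ifs
      · exact h1.symm
      · rw [dotProduct_zero]
    · simp only [hu, if_false]
      exact h5 u a
  · have h7 : ∀ e, ∑ a, x (Sum.inl (s e)) a ⬝ᵥ x (Sum.inr (t e)) (π e a) ≤ 1 := by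
      intro e
      calc ∑ a, x (Sum.inl (s e)) a ⬝ᵥ x (Sum.inr (t e)) (π e a)
          ≤ ∑ _a : A, 1 / (Fintype.card A : ℝ) := by
            refine Finset.sum_le_sum fun a _ => ?_
            refine (dot_le D _ _).trans ?_
            rw [← h5, ← h5]
            linarith
        _ = 1 := by
            rw [Finset.sum_const, Finset.card_univ, nsmul_eq_mul]
            field_simp
    have h8 : ∀ e, (∑ a, x (Sum.inl (s e)) a ⬝ᵥ x (Sum.inr (t e)) (π e a)) -
        (if e ∈ touch s t Bd then 1 else 0) ≤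
        ∑ a, (if Sum.inl (s e) ∈ Bd then (if w (Sum.inl (s e)) = a then z else 0)
          else x (Sum.inl (s e)) a) ⬝ᵥ
          (if Sum.inr (t e) ∈ Bd then (if w (Sum.inr (t e)) = π e a then z else 0)
          else x (Sum.inr (t e)) (π e a)) := by
      intro e
      by_cases he : e ∈ touch s t Bd
      · rw [if_pos he]
        have h9 := h7 e
        have h10 : 0 ≤ ∑ a, (if Sum.inl (s e) ∈ Bd then (if w (Sum.inl (s e)) = a then z else 0)
          else x (Sum.inl (s e)) a) ⬝ᵥ
          (if Sum.inr (t e) ∈ Bd then (if w (Sum.inr (t e)) = π e a then z else 0)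
          else x (Sum.inr (t e)) (π e a)) := by
          refine Finset.sum_nonneg fun a _ => ?_
          split_ifs <;> first
            | (rw [h1]; norm_num)
            | exact hzx _ _
            | exact hxz _ _
            | exact h4' _ _ _ _
            | (rw [dotProduct_zero])
            | (rw [zero_dotProduct])
        linarith
      · rw [if_neg he, sub_zero]
        have h9 : ¬ (Sum.inl (s e) ∈ Bd ∨ Sum.inr (t e) ∈ Bd) := fun h =>
          he (Finset.mem_filter.2 ⟨Finset.mem_univ _, h⟩)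
        push Not at h9
        simp only [h9.1, h9.2, if_false]
        exact le_refl _
    have h9 := Finset.sum_le_sum fun e (_ : e ∈ (Finset.univ : Finset E)) => h8 e
    rw [Finset.sum_sub_distrib] at h9
    have h10 : ∑ e : E, (if e ∈ touch s t Bd then (1 : ℝ) else 0) = (touch s t Bd).card := by
      rw [Finset.sum_ite_mem, Finset.univ_inter, Finset.sum_const, nsmul_eq_mul, mul_one]
    rw [h10] at h9
    linarith

end

section

variable {W A : Type} [Fintype W] [Fintype A] [DecidableEq W] [DecidableEq A]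

theorem prod_marg (ν : W → A → ℝ) (hs : ∀ w, ∑ a, ν w a = 1) :
    ∑ o : W → A, ∏ w, ν w (o w) = 1 := by
  have := (Finset.prod_univ_sum (fun _ : W => (Finset.univ : Finset A)) (fun w a => ν w a))
  rw [Fintype.piFinset_univ] at this
  rw [← this]
  exact Finset.prod_eq_one fun w _ => hs w

theorem prod_marg' (ν : W → A → ℝ) (hs : ∀ w, ∑ a, ν w a = 1) (w0 : W) (a0 : A) :
    ∑ o : W → A, (∏ w, ν w (o w)) * (if o w0 = a0 then 1 else 0) = ν w0 a0 := by
  have h1 : ∀ o : W → A, (∏ w, ν w (o w)) * (if o w0 = a0 then (1 : ℝ) else 0) =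
      ∏ w, (ν w (o w) * (if w = w0 then (if o w = a0 then 1 else 0) else 1)) := by
    intro o
    rw [Finset.prod_mul_distrib]
    congr 1
    rw [Finset.prod_ite_eq' Finset.univ w0 fun w => if o w = a0 then (1 : ℝ) else 0]
    simp
  simp only [h1]
  have := (Finset.prod_univ_sum (fun _ : W => (Finset.univ : Finset A))
    (fun w a => ν w a * (if w = w0 then (if a = a0 then (1 : ℝ) else 0) else 1)))
  rw [Fintype.piFinset_univ] at this
  rw [← this]
  rw [Finset.prod_eq_single w0]
  · simp
  · intro w _ hw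
    simp [hw, hs]
  · intro h
    exact absurd (Finset.mem_univ _) h

end

section

variable {U V E A : Type} [Fintype U] [Fintype V] [Fintype E] [Fintype A] [DecidableEq U]
  [DecidableEq V] [DecidableEq A]

/-- Every point with almost uniform marginals outside a small set of vertices belongs to the
relaxation. -/
theorem sol_near [Nonempty A] (s : E → U) (t : E → V) (π : E → Equiv.Perm A) (v : ℝ)
    (h : Sol s t π (fun _ _ => 1 / (Fintype.card A : ℝ)) v) (Bd : Finset (U ⊕ V))
    (μ : U ⊕ V → A → ℝ) (hμ : ∀ w a, 0 ≤ μ w a) (hs : ∀ w, ∑ a, μ w a = 1) (τ : ℝ) (hτ : 0 < τ)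
    (hτ1 : τ ≤ 1) (hnear : ∀ w ∉ Bd, ∀ a, (1 - τ) * (1 / Fintype.card A) ≤ μ w a) :
    Sol s t π μ ((1 - τ) * (v - (touch s t Bd).card)) := by
  have hq : (0 : ℝ) < Fintype.card A := by exact_mod_cast Fintype.card_pos
  obtain ⟨ν, hν⟩ : ∃ ν : U ⊕ V → A → ℝ, ν = fun w a =>
      if w ∈ Bd then μ w a else (μ w a - (1 - τ) * (1 / Fintype.card A)) / τ := ⟨_, rfl⟩
  have hν0 : ∀ w a, 0 ≤ ν w a := by
    intro w a
    rw [hν]
    beta_reduce
    split_ifs with hw
    · exact hμ w a
    · exact div_nonneg (by linarith [hnear w hw a]) hτ.le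
  have hν1 : ∀ w, ∑ a, ν w a = 1 := by
    intro w
    rw [hν]
    beta_reduce
    by_cases hw : w ∈ Bd
    · simp only [hw, if_true]
      exact hs w
    · simp only [hw, if_false]
      rw [← Finset.sum_div, Finset.sum_sub_distrib, hs, Finset.sum_const, Finset.card_univ,
        nsmul_eq_mul]
      field_simp
      ring
  obtain ⟨p, hp⟩ : ∃ p : (U ⊕ V → A) → ℝ, p = fun o => ∏ w, ν w (o w) := ⟨_, rfl⟩
  have hp0 : ∀ o, 0 ≤ p o := by
    intro o
    rw [hp]
    exact Finset.prod_nonneg fun w _ => hν0 w (o w)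
  have hp1 : ∑ o, p o = 1 := by
    rw [hp]
    exact prod_marg ν hν1
  have hpm : ∀ w a, ∑ o, p o * (if o w = a then 1 else 0) = ν w a := by
    intro w a
    rw [hp]
    exact prod_marg' ν hν1 w a
  have m1 := sol_mix s t π p hp0 hp1 _ _ (fun o => sol_fix s t π v h Bd o)
  have m2 := sol_mix s t π p hp0 hp1 _ _ (fun o => sol_lab s t π o)
  rw [← Finset.sum_mul, hp1, one_mul] at m1
  rw [← Finset.sum_mul, hp1, one_mul] at m2
  have m3 := sol_mix s t π (J := Bool) (fun b => if b then 1 - τ else τ)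
    (by intro b; cases b <;> simp <;> linarith) (by simp)
    (fun b => if b then (fun w a => ∑ o, p o *
        (if w ∈ Bd then (if o w = a then 1 else 0) else 1 / (Fintype.card A : ℝ)))
      else (fun w a => ∑ o, p o * lab o w a))
    (fun b => if b then v - (touch s t Bd).card else 0)
    (by intro b; cases b
        · simpa using m2
        · simpa using m1)
  have e1 : (fun w a => ∑ b : Bool, (if b then 1 - τ else τ) *
      ((if b then (fun w a => ∑ o, p o *
        (if w ∈ Bd then (if o w = a then 1 else 0) else 1 / (Fintype.card A : ℝ)))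
      else (fun w a => ∑ o, p o * lab o w a) : U ⊕ V → A → ℝ) w a)) = μ := by
    funext w a
    rw [Fintype.sum_bool]
    simp only [if_true, Bool.false_eq_true, if_false]
    have e2 : ∑ o, p o * lab o w a = ν w a := by
      rw [← hpm w a]
      refine Finset.sum_congr rfl fun o _ => ?_
      rw [lab_apply]
    rw [e2]
    by_cases hw : w ∈ Bd
    · simp only [hw, if_true]
      rw [hpm, hν]
      simp only [hw, if_true]
      ring
    · simp only [hw, if_false]
      rw [← Finset.sum_mul, hp1, hν]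
      simp only [hw, if_false]
      field_simp
      ring
  have e3 : ∑ b : Bool, (if b then 1 - τ else τ) *
      (if b then v - (touch s t Bd).card else 0 : ℝ) = (1 - τ) * (v - (touch s t Bd).card) := by
    rw [Fintype.sum_bool]
    simp
  rw [e1, e3] at m3
  exact m3

theorem touch_card (s : E → U) (t : E → V) (Δ : ℕ)
    (hs : ∀ u, (Finset.univ.filter fun e => s e = u).card ≤ Δ)
    (ht : ∀ v, (Finset.univ.filter fun e => t e = v).card ≤ Δ) (Bd : Finset (U ⊕ V)) :
    (touch s t Bd).card ≤ Bd.card * Δ := by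
  classical
  have h1 : touch s t Bd ⊆ Bd.biUnion fun w => Finset.univ.filter fun e =>
      Sum.inl (s e) = w ∨ Sum.inr (t e) = w := by
    intro e he
    rw [touch, Finset.mem_filter] at he
    rw [Finset.mem_biUnion]
    rcases he.2 with h | h
    · exact ⟨_, h, Finset.mem_filter.2 ⟨Finset.mem_univ _, Or.inl rfl⟩⟩
    · exact ⟨_, h, Finset.mem_filter.2 ⟨Finset.mem_univ _, Or.inr rfl⟩⟩
  refine (Finset.card_le_card h1).trans ?_
  refine Finset.card_biUnion_le_card_mul _ _ _ fun w _ => ?_
  rcases w with u | v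
  · refine le_trans (Finset.card_le_card ?_) (hs u)
    intro e he
    rw [Finset.mem_filter] at he ⊢
    refine ⟨Finset.mem_univ _, ?_⟩
    rcases he.2 with h | h
    · exact Sum.inl_injective h
    · exact absurd h (by simp)
  · refine le_trans (Finset.card_le_card ?_) (ht v)
    intro e he
    rw [Finset.mem_filter] at he ⊢
    refine ⟨Finset.mem_univ _, ?_⟩
    rcases he.2 with h | h
    · exact absurd h (by simp)
    · exact Sum.inr_injective h

/-- The general law, for covers by convex sets. -/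
theorem law_cover [Nonempty A] (s : E → U) (t : E → V) (π : E → Equiv.Perm A) (Δ : ℕ) (hΔ : 0 < Δ)
    (hs : ∀ u, (Finset.univ.filter fun e => s e = u).card ≤ Δ)
    (ht : ∀ v, (Finset.univ.filter fun e => t e = v).card ≤ Δ) (ε η : ℝ) (hε : 0 ≤ ε)
    (hη : 0 < η) (hη1 : η ≤ 1)
    (h : (fun _ _ => 1 / (Fintype.card A : ℝ)) ∈ Relax s t π ε)
    (F : List (Set (U ⊕ V → A → ℝ))) (hconv : ∀ C ∈ F, Convex ℝ C)
    (hmiss : ∀ C ∈ F, ∀ μ ∈ C, μ ∉ Relax s t π (ε + η))
    (hcov : ∀ l : U ⊕ V → A, ∃ C ∈ F, lab l ∈ C) :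
    Real.exp (η ^ 3 * Fintype.card E / (32 * Fintype.card A * Δ)) ≤ F.length := by
  have hq : (0 : ℝ) < Fintype.card A := by exact_mod_cast Fintype.card_pos
  have hΔ0 : (0 : ℝ) < Δ := by exact_mod_cast hΔ
  obtain ⟨C, hC, μ, hμC, Bd, hBd, hμ0, hμ1, hnear⟩ := exists_near F hconv hcov (η / 2)
    (by positivity) (by linarith)
  have hFpos : (0 : ℝ) < F.length := by
    have : 0 < F.length := List.length_pos_of_mem hC
    exact_mod_cast this
  by_contra hcon
  push Not at hcon
  have hlog : Real.log F.length < η ^ 3 * Fintype.card E / (32 * Fintype.card A * Δ) := by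
    rw [← Real.log_exp (η ^ 3 * Fintype.card E / (32 * Fintype.card A * Δ))]
    exact Real.log_lt_log hFpos hcon
  have h' : Sol s t π (fun _ _ => 1 / (Fintype.card A : ℝ)) ((1 - ε) * (Fintype.card E : ℝ)) := by
    obtain ⟨D, i, z, x, h1, h2, h3, h4, h5, h6⟩ := h
    exact ⟨D, i, z, x, h1, h2, h3, h4, h5, h6⟩
  have h1 := sol_near s t π _ h' Bd μ hμ0 hμ1 (η / 2) (by positivity) (by linarith) hnear
  apply hmiss C hC μ hμC
  apply mem_relax h1
  have h2 : ((touch s t Bd).card : ℝ) ≤ η / 2 * Fintype.card E := by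
    have h3 : ((touch s t Bd).card : ℝ) ≤ Bd.card * Δ := by
      exact_mod_cast touch_card s t Δ hs ht Bd
    have h4 : (Bd.card : ℝ) * ((η / 2) ^ 2 / (4 * Fintype.card A)) <
        η ^ 3 * Fintype.card E / (32 * Fintype.card A * Δ) := lt_of_le_of_lt hBd hlog
    have h5 : (Bd.card : ℝ) * Δ < η / 2 * Fintype.card E := by
      have h6 : (0 : ℝ) < (η / 2) ^ 2 / (4 * Fintype.card A) := by positivity
      have h7 : η ^ 3 * Fintype.card E / (32 * Fintype.card A * Δ) =
          (η / 2 * Fintype.card E / Δ) * ((η / 2) ^ 2 / (4 * Fintype.card A)) := by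
        field_simp
        ring
      rw [h7] at h4
      have h8 := lt_of_mul_lt_mul_right h4 h6.le
      rwa [lt_div_iff₀ hΔ0] at h8
    linarith
  have hE : (0 : ℝ) ≤ Fintype.card E := Nat.cast_nonneg _
  have h3 : (1 - ε - η / 2) * (Fintype.card E : ℝ) ≤
      (1 - ε) * (Fintype.card E : ℝ) - (touch s t Bd).card := by linarith
  have h4 : (1 - (ε + η)) * (Fintype.card E : ℝ) ≤
      (1 - η / 2) * ((1 - ε - η / 2) * (Fintype.card E : ℝ)) := by
    have h5 : (1 - η / 2) * ((1 - ε - η / 2) * (Fintype.card E : ℝ)) -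
        (1 - (ε + η)) * (Fintype.card E : ℝ) =
        (η / 2 * (ε + η / 2)) * (Fintype.card E : ℝ) := by ring
    have h6 : 0 ≤ (η / 2 * (ε + η / 2)) * (Fintype.card E : ℝ) := by positivity
    linarith
  exact h4.trans (mul_le_mul_of_nonneg_left h3 (by linarith))

/-- The general law, for branch-and-cut trees. -/
theorem law_tree [Nonempty A] (s : E → U) (t : E → V) (π : E → Equiv.Perm A) (Δ : ℕ) (hΔ : 0 < Δ)
    (hs : ∀ u, (Finset.univ.filter fun e => s e = u).card ≤ Δ)
    (ht : ∀ v, (Finset.univ.filter fun e => t e = v).card ≤ Δ) (ε η : ℝ) (hε : 0 ≤ ε)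
    (hη : 0 < η) (hη1 : η ≤ 1)
    (h : (fun _ _ => 1 / (Fintype.card A : ℝ)) ∈ Relax s t π ε)
    (T : Tree (U ⊕ V) A) (hT : T.Proves (Relax s t π (ε + η)) Set.univ) :
    Real.exp (η ^ 3 * Fintype.card E / (32 * Fintype.card A * Δ)) ≤ T.leaves := by
  obtain ⟨F, h1, h2, h3, h4⟩ := cover_of_tree _ T Set.univ convex_univ hT
  rw [← h1]
  exact law_cover s t π Δ hΔ hs ht ε η hε hη hη1 h F h2 h3 fun l => h4 l (Set.mem_univ _)

end

end Pool.Agent.W888.UG
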